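import Pool.Agent.Helper92.TG.GoalsX
import Pool.Agent.Helper60.T3.Ind

/-!
# Project TG (MP_a41896_nt), packet DER: the derivative of an endomorphism is a constant
-/

set_option autoImplicit false

open Polynomial

namespace Pool.Agent.Helper91.TG.DER

open WeierstrassCurve
open Pool.Agent.Helper29.BL Pool.Agent.Helper42.SG
open Pool.Agent.Helper60.T3 (WL zd IP)
open Pool.Agent.Helper42.TG (Endo)
open Pool.Agent.Helper92.TG

section points

variable {F : Type} [Field F] [DecidableEq F] {W : Affine F}

/-- points with the same `x` -/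
lemma eq_or_neg (P Q : W.Point) (hP : P ≠ 0) (hQ : Q ≠ 0) (h : xc P = xc Q) :
    P = Q ∨ P = -Q := by
  rcases P with _ | ⟨x1, y1, n1⟩
  · exact absurd rfl hP
  rcases Q with _ | ⟨x2, y2, n2⟩
  · exact absurd rfl hQ
  rw [xc_some, xc_some] at h
  subst h
  rcases Affine.Y_eq_of_X_eq n1.1 n2.1 rfl with h | h
  · left
    subst h
    rfl
  · right
    rw [Affine.Point.neg_some]
    subst h
    rfl

/-- a point with `ψ = 0` is equal to its negative -/
lemma add_self_zero (T : W.Point) (h : ps T = 0) : T + T = 0 := by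
  rcases T with _ | ⟨x, y, n⟩
  · exact add_zero (0 : W.Point)
  · apply Affine.Point.add_of_Y_eq rfl
    have h' : 2 * y + W.a₁ * x + W.a₃ = 0 := h
    rw [Affine.negY]
    linear_combination h'

end points

/-- `ψ` of a generic point -/
lemma ps_ne {K : Type} [Field K] [CharZero K] (W : Affine K) {F : Type} [Field F] [Algebra K F]
    (R : (WL F W).Point) (hR : Transcendental K (xc R)) : ps R ≠ 0 := by
  rcases R with _ | ⟨x, y, n⟩
  · exfalso
    apply hR
    change IsAlgebraic K (0 : F)
    exact isAlgebraic_zero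
  · intro h
    have h' : 2 * y + (WL F W).a₁ * x + (WL F W).a₃ = 0 := h
    have he := (Affine.equation_iff _ _).mp n.1
    have hR' : Transcendental K x := hR
    have h1 : aeval x (Polynomial.C 4 * X ^ 3 + Polynomial.C W.b₂ * X ^ 2 +
        Polynomial.C (2 * W.b₄) * X + Polynomial.C W.b₆) = 0 := by
      simp only [map_add, map_mul, aeval_C, aeval_X, map_pow, map_ofNat]
      simp only [WL, map_a₁, map_a₂, map_a₃, map_a₄, map_a₆] at h' he
      simp only [b₂, b₄, b₆, map_add, map_mul, map_pow, map_ofNat]
      linear_combination (-4) * he + (2 * y + algebraMap K F W.a₁ * x + algebraMap K F W.a₃) * h'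
    have h2 := (transcendental_iff.mp hR') _ h1
    have h3 := congrArg (fun p => p.coeff 3) h2
    simp [coeff_X_pow] at h3

/-- the derivation at a generic point -/
lemma step {K : Type} [Field K] [CharZero K] (W : Affine K) (ρ : Endo W) (A B C E : K[X])
    (hB : B ≠ 0) (hE : E ≠ 0) (hC : C ≠ 0) (h : GF0 ρ A B C E) {F : Type} [Field F]
    [DecidableEq F] [Algebra K F] (D : Derivation K F F) (R : (WL F W).Point)
    (hR : Transcendental K (xc R)) :
    zd D (ρ.f F R) * aeval (xc R) (B ^ 2 * C) =
      aeval (xc R) ((derivative A * B - A * derivative B) * E) * zd D R := by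
  obtain ⟨-, h1, h2⟩ := h F R hR
  have hp := ps_ne W R hR
  have hc : aeval (xc R) C ≠ 0 := fun h0 => hC ((transcendental_iff.mp hR) _ h0)
  have he : aeval (xc R) E ≠ 0 := fun h0 => hE ((transcendental_iff.mp hR) _ h0)
  have hp' : ps (ρ.f F R) ≠ 0 := by
    intro h0
    rw [h0, zero_mul] at h2
    exact mul_ne_zero hc hp h2.symm
  have h3 := congrArg D h1
  rw [Derivation.leibniz] at h3
  have hd : ∀ p : K[X], D (aeval (xc R) p) = aeval (xc R) (derivative p) * D (xc R) := by
    intro p
    rw [Derivation.map_aeval, smul_eq_mul]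
  rw [hd, hd, smul_eq_mul, smul_eq_mul] at h3
  simp only [map_mul, map_sub, map_pow, zd]
  rw [div_mul_eq_mul_div, mul_div_assoc', div_eq_div_iff hp' hp]
  linear_combination (aeval (xc R) B * aeval (xc R) C * ps R) * h3 -
    (aeval (xc R) (derivative B) * D (xc R) * aeval (xc R) C * ps R) * h1 -
    (aeval (xc R) (derivative A) * aeval (xc R) B - aeval (xc R) A * aeval (xc R) (derivative B)) *
      D (xc R) * h2

theorem t (hG : GPQ) : Pool.Agent.Helper92.TG.DER := by
  intro K _ _ W hW ρ A B C E hAB hB hE hGF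
  haveI := hW
  obtain ⟨L, _, _, _, P, Q, D, D', hind, hzP, hzQ, hz'P, hz'Q, tadd, tsub, tdbl⟩ := hG K W hW
  have tP : Transcendental K (xc P) := by
    have := hind.transcendental 0
    simpa using this
  have tQ : Transcendental K (xc Q) := by
    have := hind.transcendental 1
    simpa using this
  -- `C ≠ 0`
  have hC : C ≠ 0 := by
    rintro rfl
    obtain ⟨-, -, h2⟩ := hGF L P tP
    have he : aeval (xc P) E ≠ 0 := fun h0 => hE ((transcendental_iff.mp tP) _ h0)
    rw [map_zero, zero_mul] at h2
    have h3 : ps (ρ.f L P) = 0 := (mul_eq_zero.mp h2).resolve_right he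
    have h4 := add_self_zero _ h3
    rw [← map_add] at h4
    exact (hGF L (P + P) tdbl).1 h4
  -- `A' B - A B' ≠ 0`
  have hN' : derivative A * B - A * derivative B ≠ 0 := by
    intro h0
    have h1 : B ∣ derivative B := by
      have h2 : B ∣ A * derivative B := ⟨derivative A, by linear_combination -h0⟩
      exact hAB.symm.dvd_of_dvd_mul_left h2
    have h2 : derivative B = 0 := by
      by_contra h3
      have h4 := natDegree_le_of_dvd h1 h3
      have h5 : B.natDegree ≠ 0 := by
        intro h6
        apply h3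
        rw [eq_C_of_natDegree_eq_zero h6, derivative_C]
      have := natDegree_derivative_lt h5
      omega
    have h3 : derivative A = 0 := by
      rw [h2, mul_zero, sub_zero] at h0
      exact (mul_eq_zero.mp h0).resolve_right hB
    have h4 := eq_C_of_derivative_eq_zero h2
    have h5 := eq_C_of_derivative_eq_zero h3
    have hb : B.coeff 0 ≠ 0 := by
      intro h6
      rw [h6, Polynomial.C_0] at h4
      exact hB h4
    have hb' : algebraMap K L (B.coeff 0) ≠ 0 := by
      rw [Ne, map_eq_zero]; exact hb
    obtain ⟨g1, g2, -⟩ := hGF L P tP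
    obtain ⟨g1', g2', -⟩ := hGF L Q tQ
    rw [h4, h5, aeval_C, aeval_C] at g2 g2'
    have g3 : xc (ρ.f L P) = xc (ρ.f L Q) := mul_right_cancel₀ hb' (g2.trans g2'.symm)
    rcases eq_or_neg _ _ g1 g1' g3 with h6 | h6
    · refine (hGF L (P - Q) tsub).1 ?_
      rw [map_sub, h6, sub_self]
    · refine (hGF L (P + Q) tadd).1 ?_
      rw [map_add, h6, neg_add_cancel]
  refine ⟨hN', ?_⟩
  set M : K[X] := B ^ 2 * C with hM
  set N : K[X] := (derivative A * B - A * derivative B) * E with hN
  have hM0 : M ≠ 0 := mul_ne_zero (pow_ne_zero _ hB) hC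
  have key : ∀ (D : Derivation K L L) (R S : (WL L W).Point), Transcendental K (xc R) →
      Transcendental K (xc S) → Transcendental K (xc (R + S)) → zd D R ≠ 0 → zd D S = 0 →
      aeval (xc (R + S)) N * aeval (xc R) M = aeval (xc (R + S)) M * aeval (xc R) N := by
    intro D R S tR tS tRS hzR hzS
    have e1 := step W ρ A B C E hB hE hC hGF D R tR
    have e2 := step W ρ A B C E hB hE hC hGF D S tS
    have e3 := step W ρ A B C E hB hE hC hGF D (R + S) tRS
    rw [hzS, mul_zero] at e2
    have e4 : zd D (ρ.f L S) = 0 :=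
      (mul_eq_zero.mp e2).resolve_right fun h0 => hM0 ((transcendental_iff.mp tS) _ h0)
    rw [map_add, Pool.Agent.Helper60.T3.th_DADD K L W D R S,
      Pool.Agent.Helper60.T3.th_DADD K L W D (ρ.f L R) (ρ.f L S), e4, hzS, add_zero,
      add_zero] at e3
    apply mul_right_cancel₀ hzR
    linear_combination (-aeval (xc R) M) * e3 + aeval (xc (R + S)) M * e1
  have k1 := key D P Q tP tQ tadd hzP hzQ
  have k2 := key D' Q P tQ tP (by rw [add_comm]; exact tadd) hz'Q hz'P
  rw [add_comm Q P] at k2
  have hu : aeval (xc (P + Q)) M ≠ 0 := fun h0 => hM0 ((transcendental_iff.mp tadd) _ h0)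
  have k3 : aeval (xc P) N * aeval (xc Q) M = aeval (xc Q) N * aeval (xc P) M := by
    apply mul_left_cancel₀ hu
    linear_combination (-aeval (xc Q) M) * k1 + aeval (xc P) M * k2
  -- the polynomial identity
  obtain ⟨y, hy⟩ : ∃ y : K, eval y M ≠ 0 := by
    by_contra h0
    push Not at h0
    exact hM0 (Polynomial.funext fun y => by rw [h0 y, eval_zero])
  have k4 : (aeval (MvPolynomial.X 0 : MvPolynomial (Fin 2) K) N) *
      (aeval (MvPolynomial.X 1 : MvPolynomial (Fin 2) K) M) =
      (aeval (MvPolynomial.X 1 : MvPolynomial (Fin 2) K) N) *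
      (aeval (MvPolynomial.X 0 : MvPolynomial (Fin 2) K) M) := by
    apply hind
    simp only [map_mul, ← Polynomial.aeval_algHom_apply, MvPolynomial.aeval_X,
      Matrix.cons_val_zero, Matrix.cons_val_one]
    exact k3
  have k5 : N * Polynomial.C (eval y M) = Polynomial.C (eval y N) * M := by
    have := congrArg (MvPolynomial.aeval (R := K) ![(X : K[X]), Polynomial.C y]) k4
    simp only [map_mul, ← Polynomial.aeval_algHom_apply, MvPolynomial.aeval_X,
      Matrix.cons_val_zero, Matrix.cons_val_one, aeval_X_left_apply] at this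
    have e : ∀ p : K[X], aeval (Polynomial.C y) p = Polynomial.C (eval y p) := by
      intro p
      rw [← Polynomial.algebraMap_eq, Polynomial.aeval_algebraMap_apply, Polynomial.coe_aeval_eq_eval]
    rw [e, e] at this
    exact this
  set r : K := eval y N / eval y M with hr
  have k6 : N = Polynomial.C r * M := by
    have h1 : Polynomial.C (eval y M) ≠ 0 := by rwa [Ne, Polynomial.C_eq_zero]
    apply mul_right_cancel₀ h1
    rw [k5, hr]
    have h2 : Polynomial.C (eval y N / eval y M) * Polynomial.C (eval y M) =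
        Polynomial.C (eval y N) := by
      rw [← Polynomial.C_mul, div_mul_cancel₀ _ hy]
    linear_combination (-M) * h2
  have hN0 : N ≠ 0 := mul_ne_zero hN' hE
  refine ⟨r, ?_, ?_⟩
  · intro h0
    rw [h0, Polynomial.C_0, zero_mul] at k6
    exact hN0 k6
  · intro F _ _ _ R hR
    obtain ⟨h1, h2, h3⟩ := hGF F R hR
    refine ⟨h1, h2, ?_⟩
    have he : aeval (xc R) E ≠ 0 := fun h0 => hE ((transcendental_iff.mp hR) _ h0)
    apply mul_right_cancel₀ he
    have k7 := congrArg (aeval (xc R)) k6
    rw [hN, hM] at k7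
    simp only [map_mul, map_pow, aeval_C, map_sub] at k7
    simp only [map_mul, map_sub]
    linear_combination (algebraMap K F r * aeval (xc R) B ^ 2) * h3 - ps R * k7

end Pool.Agent.Helper91.TG.DER
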